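import Mathlib

/-!
# Terms, triangular independence, evaluations
-/

set_option autoImplicit false

open Set

namespace Pool.Agent.Helper9K

/-- triangular changes of variables preserve algebraic independence -/
theorem triang {F G J α : Type*} [Field F] [Field G] [Algebra F G] [LinearOrder α] (ρ : J → α)
    (γ : J → G) (hγ : AlgebraicIndependent F γ) (y : J → G)
    (hy : ∀ i, y i ∈ IntermediateField.adjoin F (γ '' {i' | ρ i' < ρ i})) :
    AlgebraicIndependent F (fun i => y i + γ i) := by
  classical
  set x : J → G := fun i => y i + γ i with hx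
  have main : ∀ s : Finset J, AlgebraicIndepOn F x (s : Set J) := by
    intro s
    induction s using Finset.strongInduction with
    | H s ih =>
      by_cases hs : s.Nonempty
      · obtain ⟨i, his, hi⟩ := s.exists_max_image ρ hs
        have h1 : (s : Set J) = insert i ((s.erase i : Finset J) : Set J) := by
          rw [← Finset.coe_insert, Finset.insert_erase his]
        rw [h1]
        refine AlgebraicIndepOn.insert (ih _ (Finset.erase_ssubset his)) ?_
        intro halg
        have hsub : Algebra.adjoin F (x '' ((s.erase i : Finset J) : Set J)) ≤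
            (IntermediateField.adjoin F (γ '' {i}ᶜ)).toSubalgebra := by
          rw [Algebra.adjoin_le_iff]
          rintro _ ⟨j, hj, rfl⟩
          have hj' : j ∈ s.erase i := hj
          rw [Finset.mem_erase] at hj'
          have h2 : y j ∈ IntermediateField.adjoin F (γ '' {i}ᶜ) := by
            refine IntermediateField.adjoin.mono F _ _ (Set.image_mono ?_) (hy j)
            intro k hk hki
            rw [Set.mem_singleton_iff] at hki
            have h3 : ρ k < ρ j := hk
            rw [hki] at h3
            exact absurd (hi j hj'.2) (not_le.2 h3)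
          have h3 : γ j ∈ IntermediateField.adjoin F (γ '' {i}ᶜ) :=
            IntermediateField.subset_adjoin F _ ⟨j, hj'.1, rfl⟩
          exact add_mem h2 h3
        have h4 : IsAlgebraic (IntermediateField.adjoin F (γ '' {i}ᶜ)) (x i) :=
          IsAlgebraic.tower_top_of_subalgebra_le hsub halg
        have h5 : y i ∈ IntermediateField.adjoin F (γ '' {i}ᶜ) := by
          refine IntermediateField.adjoin.mono F _ _ (Set.image_mono ?_) (hy i)
          intro k hk hki
          rw [Set.mem_singleton_iff] at hki
          have h3 : ρ k < ρ i := hk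
          rw [hki] at h3
          exact lt_irrefl _ h3
        have h6 : IsAlgebraic (IntermediateField.adjoin F (γ '' {i}ᶜ)) (y i) :=
          isAlgebraic_algebraMap (⟨y i, h5⟩ : IntermediateField.adjoin F (γ '' {i}ᶜ))
        have h7 : IsAlgebraic (IntermediateField.adjoin F (γ '' {i}ᶜ)) (γ i) := by
          have h8 : γ i = x i - y i := by simp [hx]
          rw [h8]
          exact h4.sub h6
        have h9 := IntermediateField.isAlgebraic_adjoin_iff.1 h7
        exact hγ.transcendental_adjoin (s := {i}ᶜ) (i := i) (by simp) h9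
      · rw [Finset.not_nonempty_iff_eq_empty] at hs
        subst hs
        have : IsEmpty ((∅ : Finset J) : Set J) := by simp
        exact algebraicIndependent_empty_type_iff.2 (algebraMap F G).injective
  refine algebraicIndependent_of_finite_type fun t ht => ?_
  have := main ht.toFinset
  rw [Set.Finite.coe_toFinset] at this
  exact this

/-- terms -/
inductive Tm (F ι : Type) : Type
  | c : F → Tm F ι
  | g : (ℕ → Tm F ι) → ι → Tm F ι
  | add : Tm F ι → Tm F ι → Tm F ι
  | mul : Tm F ι → Tm F ι → Tm F ι
  | inv : Tm F ι → Tm F ι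

/-- the index set of the generators -/
abbrev Ji (F ι : Type) : Type := (ℕ → Tm F ι) × ι

/-- the rank of a term -/
noncomputable def rk {F ι : Type} : Tm F ι → Ordinal.{0}
  | .c _ => 0
  | .g s _ => ⨆ n, Order.succ (rk (s n))
  | .add a b => max (rk a) (rk b)
  | .mul a b => max (rk a) (rk b)
  | .inv a => rk a

/-- the rank of a generator -/
noncomputable def rj {F ι : Type} (j : Ji F ι) : Ordinal.{0} := rk (Tm.g j.1 j.2)

lemma rk_lt {F ι : Type} (j : Ji F ι) (n : ℕ) : rk (j.1 n) < rj j := by
  have h1 : Order.succ (rk (j.1 n)) ≤ rj j := by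
    unfold rj
    rw [rk]
    exact Ordinal.le_iSup (fun n => Order.succ (rk (j.1 n))) n
  exact (Order.lt_succ _).trans_le h1

section

variable {F ι : Type} [Field F] {G : Type} [Field G] [Algebra F G]

/-- the value of a term, the generator `j = (s, u)` having the value of `s n` plus `γ j` -/
noncomputable def ev (γ : Ji F ι → G) (n : ℕ) : Tm F ι → G
  | .c a => algebraMap F G a
  | .g s u => ev γ n (s n) + γ (s, u)
  | .add a b => ev γ n a + ev γ n b
  | .mul a b => ev γ n a * ev γ n b
  | .inv a => (ev γ n a)⁻¹

lemma ev_mem (γ : Ji F ι → G) (n : ℕ) (t : Tm F ι) :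
    ev γ n t ∈ IntermediateField.adjoin F (γ '' {i | rj i ≤ rk t}) := by
  induction t with
  | c a => exact IntermediateField.algebraMap_mem _ a
  | g s u ih =>
    rw [ev]
    have h1 : ev γ n (s n) ∈ IntermediateField.adjoin F (γ '' {i | rj i ≤ rk (Tm.g s u)}) := by
      refine IntermediateField.adjoin.mono F _ _ (Set.image_mono ?_) (ih n)
      intro i hi
      exact (show rj i ≤ rk (s n) from hi).trans (rk_lt (s, u) n).le
    have h2 : γ (s, u) ∈ IntermediateField.adjoin F (γ '' {i | rj i ≤ rk (Tm.g s u)}) :=
      IntermediateField.subset_adjoin F _ ⟨(s, u), (le_refl _ : rj (s, u) ≤ rk (Tm.g s u)), rfl⟩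
    exact add_mem h1 h2
  | add a b iha ihb =>
    rw [ev]
    refine add_mem (IntermediateField.adjoin.mono F _ _ (Set.image_mono ?_) iha)
      (IntermediateField.adjoin.mono F _ _ (Set.image_mono ?_) ihb)
    · intro i hi
      exact (show rj i ≤ rk a from hi).trans (by rw [rk]; exact le_max_left _ _)
    · intro i hi
      exact (show rj i ≤ rk b from hi).trans (by rw [rk]; exact le_max_right _ _)
  | mul a b iha ihb =>
    rw [ev]
    refine mul_mem (IntermediateField.adjoin.mono F _ _ (Set.image_mono ?_) iha)
      (IntermediateField.adjoin.mono F _ _ (Set.image_mono ?_) ihb)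
    · intro i hi
      exact (show rj i ≤ rk a from hi).trans (by rw [rk]; exact le_max_left _ _)
    · intro i hi
      exact (show rj i ≤ rk b from hi).trans (by rw [rk]; exact le_max_right _ _)
  | inv a iha =>
    rw [ev]
    exact inv_mem iha

/-- the values of the generators are algebraically independent -/
lemma indep (γ : Ji F ι → G) (hγ : AlgebraicIndependent F γ) (n : ℕ) :
    AlgebraicIndependent F (fun j : Ji F ι => ev γ n (j.1 n) + γ j) := by
  refine triang rj γ hγ _ fun j => ?_
  refine IntermediateField.adjoin.mono F _ _ (Set.image_mono ?_) (ev_mem γ n (j.1 n))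
  intro i hi
  exact (show rj i ≤ rk (j.1 n) from hi).trans_lt (rk_lt j n)

variable (F ι) in
/-- the big field -/
abbrev KK : Type := FractionRing (MvPolynomial (Ji F ι) F)

/-- the element of the big field given by a term -/
noncomputable def th : Tm F ι → KK F ι
  | .c a => algebraMap (MvPolynomial (Ji F ι) F) (KK F ι) (MvPolynomial.C a)
  | .g s u => algebraMap (MvPolynomial (Ji F ι) F) (KK F ι) (MvPolynomial.X (s, u))
  | .add a b => th a + th b
  | .mul a b => th a * th b
  | .inv a => (th a)⁻¹

lemma th_surj (k : KK F ι) : ∃ t : Tm F ι, th t = k := by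
  have hp : ∀ p : MvPolynomial (Ji F ι) F, ∃ t : Tm F ι,
      th t = algebraMap (MvPolynomial (Ji F ι) F) (KK F ι) p := by
    intro p
    induction p using MvPolynomial.induction_on with
    | C a => exact ⟨.c a, rfl⟩
    | add p q hp hq =>
      obtain ⟨a, ha⟩ := hp
      obtain ⟨b, hb⟩ := hq
      exact ⟨.add a b, by rw [th, ha, hb, map_add]⟩
    | mul_X p j hp =>
      obtain ⟨a, ha⟩ := hp
      refine ⟨.mul a (.g j.1 j.2), ?_⟩
      rw [th, ha, map_mul, th]
  obtain ⟨p, q, hq, rfl⟩ := IsFractionRing.div_surjective (A := MvPolynomial (Ji F ι) F) k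
  obtain ⟨a, ha⟩ := hp p
  obtain ⟨b, hb⟩ := hp q
  refine ⟨.mul a (.inv b), ?_⟩
  rw [th, th, ha, hb, div_eq_mul_inv]

/-- the evaluation of polynomials -/
noncomputable def evP (γ : Ji F ι → G) (n : ℕ) : MvPolynomial (Ji F ι) F →+* G :=
  ((MvPolynomial.aeval (fun j : Ji F ι => ev γ n (j.1 n) + γ j) :
      MvPolynomial (Ji F ι) F →ₐ[F] G) : MvPolynomial (Ji F ι) F →+* G)

lemma evP_inj (γ : Ji F ι → G) (hγ : AlgebraicIndependent F γ) (n : ℕ) :
    Function.Injective (evP γ n) := indep γ hγ n

/-- the evaluation homomorphism -/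
noncomputable def evK (γ : Ji F ι → G) (hγ : AlgebraicIndependent F γ) (n : ℕ) : KK F ι →+* G :=
  IsFractionRing.lift (A := MvPolynomial (Ji F ι) F) (K := KK F ι) (evP_inj γ hγ n)

lemma evK_alg (γ : Ji F ι → G) (hγ : AlgebraicIndependent F γ) (n : ℕ)
    (p : MvPolynomial (Ji F ι) F) :
    evK γ hγ n (algebraMap (MvPolynomial (Ji F ι) F) (KK F ι) p) = evP γ n p :=
  IsFractionRing.lift_algebraMap (evP_inj γ hγ n) p

lemma evK_th (γ : Ji F ι → G) (hγ : AlgebraicIndependent F γ) (n : ℕ) (t : Tm F ι) :
    evK γ hγ n (th t) = ev γ n t := by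
  induction t with
  | c a =>
    rw [th, evK_alg, evP, ev]
    simp
  | g s u ih =>
    rw [th, evK_alg, evP, ev]
    simp
  | add a b iha ihb => rw [th, map_add, iha, ihb, ev]
  | mul a b iha ihb => rw [th, map_mul, iha, ihb, ev]
  | inv a iha => rw [th, map_inv₀, iha, ev]

/-- small perturbations of all sequences are available -/
lemma perturb (γ : ℕ → Ji F ι → G) (hγ : ∀ n, AlgebraicIndependent F (γ n)) (k : ℕ → KK F ι)
    (u : ι) : ∃ (z : KK F ι) (s : ℕ → Tm F ι),
      ∀ n, evK (γ n) (hγ n) n z = evK (γ n) (hγ n) n (k n) + γ n (s, u) := by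
  choose s hs using fun n => th_surj (k n)
  refine ⟨th (.g s u), s, fun n => ?_⟩
  rw [evK_th, ← hs n, evK_th, ev]

end

end Pool.Agent.Helper9K
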