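import Mathlib

/-!
# The combinatorial core of the connectedness argument
-/

set_option autoImplicit false

namespace Pool.Agent.Helper9K

open Classical in
/-- number of elements of `S` below `m` -/
noncomputable def cnt (S : Set ℕ) (m : ℕ) : ℕ := ((Finset.range m).filter (· ∈ S)).card

/-- the upper density of `S` is at most `ε`, eventually -/
def P (S : Set ℕ) (ε : ℝ) : Prop := ∃ N : ℕ, ∀ m, N ≤ m → (cnt S m : ℝ) ≤ ε * m

lemma cnt_mono {S T : Set ℕ} (h : S ⊆ T) (m : ℕ) : cnt S m ≤ cnt T m := by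
  classical
  unfold cnt
  apply Finset.card_le_card
  intro x hx
  rw [Finset.mem_filter] at hx ⊢
  exact ⟨hx.1, h hx.2⟩

lemma cnt_union (S T : Set ℕ) (m : ℕ) : cnt (S ∪ T) m ≤ cnt S m + cnt T m := by
  classical
  unfold cnt
  refine (Finset.card_le_card ?_).trans (Finset.card_union_le _ _)
  intro x hx
  simp only [Finset.mem_union, Finset.mem_filter] at hx ⊢
  rcases hx.2 with h | h
  · exact Or.inl ⟨hx.1, h⟩
  · exact Or.inr ⟨hx.1, h⟩

lemma cnt_le (S : Set ℕ) (m : ℕ) : cnt S m ≤ m := by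
  classical
  unfold cnt
  exact (Finset.card_filter_le _ _).trans (by simp)

lemma cnt_empty (m : ℕ) : cnt ∅ m = 0 := by
  classical
  simp [cnt]

lemma cnt_univ (m : ℕ) : cnt Set.univ m = m := by
  classical
  simp [cnt]

lemma cnt_zero (S : Set ℕ) : cnt S 0 = 0 := by
  classical
  simp [cnt]

lemma cnt_succ_mem {S : Set ℕ} {m : ℕ} (h : m ∈ S) : cnt S (m + 1) = cnt S m + 1 := by
  classical
  unfold cnt
  rw [Finset.range_add_one, Finset.filter_insert, if_pos h, Finset.card_insert_of_notMem]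
  simp

lemma cnt_succ_notMem {S : Set ℕ} {m : ℕ} (h : m ∉ S) : cnt S (m + 1) = cnt S m := by
  classical
  unfold cnt
  rw [Finset.range_add_one, Finset.filter_insert, if_neg h]

lemma P.mono {S T : Set ℕ} {ε δ : ℝ} (h : P T ε) (hS : S ⊆ T) (hε : ε ≤ δ) : P S δ := by
  obtain ⟨N, hN⟩ := h
  refine ⟨N, fun m hm => ?_⟩
  have h1 : (cnt S m : ℝ) ≤ cnt T m := by exact_mod_cast cnt_mono hS m
  have h2 := hN m hm
  have h3 : ε * m ≤ δ * m := mul_le_mul_of_nonneg_right hε (Nat.cast_nonneg m)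
  linarith

lemma P.union {S T : Set ℕ} {ε δ : ℝ} (h : P S ε) (h' : P T δ) : P (S ∪ T) (ε + δ) := by
  obtain ⟨N, hN⟩ := h
  obtain ⟨M, hM⟩ := h'
  refine ⟨max N M, fun m hm => ?_⟩
  have h1 : (cnt (S ∪ T) m : ℝ) ≤ cnt S m + cnt T m := by exact_mod_cast cnt_union S T m
  have h2 := hN m ((le_max_left _ _).trans hm)
  have h3 := hM m ((le_max_right _ _).trans hm)
  linarith

lemma P_empty {ε : ℝ} (h : 0 ≤ ε) : P ∅ ε := by
  refine ⟨0, fun m _ => ?_⟩
  rw [cnt_empty]
  simpa using mul_nonneg h (Nat.cast_nonneg m)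

lemma P_of_one_le (S : Set ℕ) {ε : ℝ} (h : 1 ≤ ε) : P S ε := by
  refine ⟨0, fun m _ => ?_⟩
  have h1 : (cnt S m : ℝ) ≤ m := by exact_mod_cast cnt_le S m
  have h2 : (1 : ℝ) * m ≤ ε * m := mul_le_mul_of_nonneg_right h (Nat.cast_nonneg m)
  linarith

lemma not_P_univ {ε : ℝ} (h : ε < 1) : ¬ P Set.univ ε := by
  rintro ⟨N, hN⟩
  have h1 := hN (N + 1) (by omega)
  rw [cnt_univ] at h1
  have h2 : (0 : ℝ) < ((N + 1 : ℕ) : ℝ) := by positivity
  have h3 : ε * ((N + 1 : ℕ) : ℝ) < 1 * ((N + 1 : ℕ) : ℝ) := mul_lt_mul_of_pos_right h h2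
  linarith

lemma cnt_sdiff {S E : Set ℕ} (h : E ⊆ S) (m : ℕ) : cnt E m + cnt (S \ E) m = cnt S m := by
  induction m with
  | zero => simp [cnt_zero]
  | succ m ih =>
    by_cases hE : m ∈ E
    · have h1 : m ∉ S \ E := fun h' => h'.2 hE
      rw [cnt_succ_mem hE, cnt_succ_notMem h1, cnt_succ_mem (h hE)]
      omega
    · by_cases hS : m ∈ S
      · have h1 : m ∈ S \ E := ⟨hS, hE⟩
        rw [cnt_succ_notMem hE, cnt_succ_mem h1, cnt_succ_mem hS]
        omega
      · have h1 : m ∉ S \ E := fun h' => hS h'.1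
        rw [cnt_succ_notMem hE, cnt_succ_notMem h1, cnt_succ_notMem hS]
        omega

/-- splitting a set of natural numbers in a given proportion -/
lemma split (S : Set ℕ) (θ : ℝ) (h0 : 0 ≤ θ) (h1 : θ ≤ 1) :
    ∃ E ⊆ S, ∀ m, (cnt E m : ℝ) ≤ θ * cnt S m ∧ (cnt (S \ E) m : ℝ) ≤ (1 - θ) * cnt S m + 1 := by
  set E : Set ℕ := {n | n ∈ S ∧ ⌊θ * (cnt S n : ℝ)⌋₊ < ⌊θ * ((cnt S n : ℝ) + 1)⌋₊} with hE
  have hES : E ⊆ S := fun n hn => hn.1
  have hc : ∀ m, cnt E m = ⌊θ * (cnt S m : ℝ)⌋₊ := by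
    intro m
    induction m with
    | zero => simp [cnt_zero]
    | succ m ih =>
      by_cases hS : m ∈ S
      · rw [cnt_succ_mem hS]
        push_cast
        have h2 : ⌊θ * ((cnt S m : ℝ) + 1)⌋₊ ≤ ⌊θ * (cnt S m : ℝ)⌋₊ + 1 := by
          have h3 : θ * ((cnt S m : ℝ) + 1) ≤ θ * (cnt S m : ℝ) + 1 := by linarith
          refine (Nat.floor_le_floor h3).trans ?_
          rw [Nat.floor_add_one (by positivity)]
        have h4 : ⌊θ * (cnt S m : ℝ)⌋₊ ≤ ⌊θ * ((cnt S m : ℝ) + 1)⌋₊ :=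
          Nat.floor_le_floor (by linarith)
        by_cases hm : m ∈ E
        · rw [cnt_succ_mem hm, ih]
          have := hm.2
          omega
        · rw [cnt_succ_notMem hm, ih]
          have h5 : ¬ ⌊θ * (cnt S m : ℝ)⌋₊ < ⌊θ * ((cnt S m : ℝ) + 1)⌋₊ := fun h => hm ⟨hS, h⟩
          omega
      · rw [cnt_succ_notMem hS, cnt_succ_notMem (fun h => hS (hES h)), ih]
  refine ⟨E, hES, fun m => ?_⟩
  have h2 : (cnt E m : ℝ) ≤ θ * cnt S m := by
    rw [hc m]
    exact Nat.floor_le (by positivity)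
  have h3 : θ * (cnt S m : ℝ) < cnt E m + 1 := by
    rw [hc m]
    exact Nat.lt_floor_add_one _
  have h4 : (cnt E m : ℝ) + cnt (S \ E) m = cnt S m := by exact_mod_cast cnt_sdiff hES m
  refine ⟨h2, ?_⟩
  linarith

lemma cnt_eq_zero {S : Set ℕ} {m : ℕ} (h : ∀ ω, ω < m → ω ∉ S) : cnt S m = 0 := by
  classical
  unfold cnt
  rw [Finset.card_eq_zero, Finset.filter_eq_empty_iff]
  intro ω hω
  exact h ω (Finset.mem_range.1 hω)

lemma cnt_bound (S : Set ℕ) (T : ℕ → Set ℕ) (a : ℕ) (s : Finset ℕ) (m : ℕ)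
    (h : ∀ ω, ω < m → ω ∈ S → ω < a ∨ ∃ k ∈ s, ω ∈ T k) :
    cnt S m ≤ a + ∑ k ∈ s, cnt (T k) m := by
  classical
  unfold cnt
  have h2 : (s.biUnion fun k => (Finset.range m).filter (· ∈ T k)).card ≤
      ∑ k ∈ s, ((Finset.range m).filter (· ∈ T k)).card := Finset.card_biUnion_le
  have h1 : ((Finset.range m).filter (· ∈ S)) ⊆ Finset.range a ∪
      s.biUnion fun k => (Finset.range m).filter (· ∈ T k) := by
    intro ω hω
    simp only [Finset.mem_filter, Finset.mem_range] at hω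
    rcases h ω hω.1 hω.2 with h | ⟨k, hk, h3⟩
    · exact Finset.mem_union_left _ (Finset.mem_range.2 h)
    · apply Finset.mem_union_right
      rw [Finset.mem_biUnion]
      refine ⟨k, hk, ?_⟩
      simp only [Finset.mem_filter, Finset.mem_range]
      exact ⟨hω.1, h3⟩
  have h3 := (Finset.card_le_card h1).trans (Finset.card_union_le _ _)
  rw [Finset.card_range] at h3
  convert h3.trans (Nat.add_le_add_left h2 _)

/-- **The core.** A two-valued function which is locally constant in measure is constant, if small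
perturbations of all sequences are available. -/
theorem core {K V : Type*} (B : V → K → K → Set ℕ)
    (c2 : ∀ v, ∃ u, ∀ x y z, B v x z ⊆ B u x y ∪ B u y z)
    (c3 : ∀ v w, ∃ u, (∀ x y, B v x y ⊆ B u x y) ∧ ∀ x y, B w x y ⊆ B u x y)
    (c4 : ∀ (k : ℕ → K) (u : ℕ → V), ∃ z, ∀ n, n ∉ B (u n) z (k n))
    (f : K → Bool) (hf : ∀ x, ∃ v, ∃ ε : ℝ, 0 < ε ∧ ∀ w, P (B v w x) ε → f w = f x) :
    ∀ x y, f x = f y := by
  classical
  by_contra hcon
  push Not at hcon
  obtain ⟨a, b, hab⟩ := hcon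
  let SS : K → Set ℝ := fun x => {ε | 0 < ε ∧ ∃ v, ∀ w, P (B v w x) ε → f w = f x}
  have hne : ∀ x, (SS x).Nonempty := by
    intro x
    obtain ⟨v, ε, h1, h2⟩ := hf x
    exact ⟨ε, h1, v, h2⟩
  have hle : ∀ x, ∀ ε ∈ SS x, ε ≤ 1 := by
    rintro x ε ⟨h1, v, h2⟩
    by_contra h
    push Not at h
    exact hab ((h2 a (P_of_one_le _ h.le)).trans (h2 b (P_of_one_le _ h.le)).symm)
  have hbdd : ∀ x, BddAbove (SS x) := fun x => ⟨1, fun ε hε => hle x ε hε⟩
  let D : K → ℝ := fun x => sSup (SS x)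
  have Dpos : ∀ x, 0 < D x := by
    intro x
    obtain ⟨ε, hε⟩ := hne x
    exact hε.1.trans_le (le_csSup (hbdd x) hε)
  have Dle : ∀ x, D x ≤ 1 := fun x => csSup_le (hne x) (hle x)
  have L1 : ∀ x ε, ε < D x → ∃ v, ∀ w, P (B v w x) ε → f w = f x := by
    intro x ε h
    obtain ⟨ε', ⟨-, v, hv⟩, h2⟩ := exists_lt_of_lt_csSup (hne x) h
    exact ⟨v, fun w hw => hv w (hw.mono (Set.Subset.refl _) h2.le)⟩
  have L2 : ∀ x η v, 0 < η → ∃ w, f w ≠ f x ∧ P (B v w x) (D x + η) := by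
    intro x η v hη
    by_contra h
    push Not at h
    have h1 : D x + η ∈ SS x := by
      refine ⟨by have := Dpos x; linarith, v, fun w hw => ?_⟩
      by_contra h2
      exact h w h2 hw
    have := le_csSup (hbdd x) h1
    have h3 : D x + η ≤ D x := this
    linarith
  have step : ∀ x η v, 0 < η → ∃ x', f x' ≠ f x ∧ P (B v x' x) (D x + η) ∧ D x' ≤ 2 * η := by
    intro x η v hη
    have hD0 := Dpos x
    -- the smaller radius
    obtain ⟨ε₀, hε₀, hθ⟩ : ∃ ε₀ < D x, ∃ θ : ℝ, 0 ≤ θ ∧ θ ≤ 1 ∧ θ * (D x + η) ≤ 2 * η ∧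
        ∃ M : ℕ, ∀ m : ℕ, M ≤ m → (1 - θ) * ((D x + η) * m) + 1 ≤ ε₀ * m := by
      by_cases hc : η < D x
      · refine ⟨D x - η / 2, by linarith, 2 * η / (D x + η), by positivity, ?_, ?_, ?_⟩
        · rw [div_le_one (by linarith)]; linarith
        · rw [div_mul_cancel₀ _ (by linarith)]
        · obtain ⟨M, hM⟩ := exists_nat_ge (2 / η)
          refine ⟨M, fun m hm => ?_⟩
          have h1 : (1 - 2 * η / (D x + η)) * ((D x + η) * m) = (D x - η) * m := by
            have : D x + η ≠ 0 := by linarith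
            field_simp
            ring
          rw [h1]
          have h2 : 2 / η ≤ m := hM.trans (by exact_mod_cast hm)
          rw [div_le_iff₀ hη] at h2
          nlinarith
      · push Not at hc
        refine ⟨D x / 2, by linarith, 1, zero_le_one, le_refl _, by linarith, ?_⟩
        obtain ⟨M, hM⟩ := exists_nat_ge (2 / D x)
        refine ⟨M, fun m hm => ?_⟩
        have h2 : 2 / D x ≤ m := hM.trans (by exact_mod_cast hm)
        rw [div_le_iff₀ hD0] at h2
        nlinarith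
    obtain ⟨θ, hθ0, hθ1, hθ2, M, hM⟩ := hθ
    obtain ⟨v₀, hv₀⟩ := L1 x ε₀ hε₀
    obtain ⟨u₀, hu₀⟩ := c2 v₀
    obtain ⟨v', hv'1, hv'2⟩ := c3 v u₀
    obtain ⟨x', hx', hPx⟩ := L2 x η v' hη
    refine ⟨x', hx', hPx.mono (hv'1 _ _) le_rfl, ?_⟩
    by_contra hD
    push Not at hD
    obtain ⟨v₁, hv₁⟩ := L1 x' (2 * η) hD
    have hS : P (B u₀ x' x) (D x + η) := hPx.mono (hv'2 _ _) le_rfl
    obtain ⟨E, hES, hE⟩ := split (B u₀ x' x) θ hθ0 hθ1
    obtain ⟨N, hN⟩ := hS
    have hPE : P E (2 * η) := by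
      refine ⟨N, fun m hm => ?_⟩
      have h1 := (hE m).1
      have h2 := mul_le_mul_of_nonneg_left (hN m hm) hθ0
      have h3 : θ * ((D x + η) * m) ≤ 2 * η * m := by
        have := mul_le_mul_of_nonneg_right hθ2 (Nat.cast_nonneg (α := ℝ) m)
        linarith
      linarith
    have hPE' : P (B u₀ x' x \ E) ε₀ := by
      refine ⟨max N M, fun m hm => ?_⟩
      have h1 := (hE m).2
      have h2 := mul_le_mul_of_nonneg_left (hN m ((le_max_left _ _).trans hm))
        (sub_nonneg.2 hθ1)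
      have h3 := hM m ((le_max_right _ _).trans hm)
      linarith
    obtain ⟨u₁, hu₁a, hu₁b⟩ := c3 v₀ u₀
    obtain ⟨u, hua, hub⟩ := c3 u₁ v₁
    obtain ⟨z, hz⟩ := c4 (fun n => if n ∈ E then x else x') (fun _ => u)
    have fz1 : f z = f x' := by
      refine hv₁ z (hPE.mono ?_ le_rfl)
      intro n hn
      by_contra hnE
      have h1 := hz n
      simp only [if_neg hnE] at h1
      exact h1 (hub _ _ hn)
    have fz2 : f z = f x := by
      refine hv₀ z (hPE'.mono ?_ le_rfl)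
      intro n hn
      by_cases hnE : n ∈ E
      · have h1 := hz n
        simp only [if_pos hnE] at h1
        exact absurd (hua _ _ (hu₁a _ _ hn)) h1
      · have h1 := hz n
        simp only [if_neg hnE] at h1
        rcases hu₀ z x' x hn with h | h
        · exact absurd (hua _ _ (hu₁b _ _ h)) h1
        · exact ⟨h, hnE⟩
    exact hx' (fz1.symm.trans fz2)
  choose half hhalf using c2
  choose sup hs1 hs2 using c3
  choose m₀ e₀ he₀ hm₀ using hf
  choose nx hn1 hn2 hn3 using step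
  have hpow : ∀ n : ℕ, (0 : ℝ) < (1 / 2) ^ n := fun n => by positivity
  let sq : ℕ → K × V := fun n => Nat.rec (a, half (m₀ a))
    (fun n s => (nx s.1 ((1 / 2) ^ n) (half s.2) (hpow n),
      sup (half s.2) (half (m₀ (nx s.1 ((1 / 2) ^ n) (half s.2) (hpow n)))))) n
  let x : ℕ → K := fun n => (sq n).1
  let v : ℕ → V := fun n => (sq n).2
  have hx : ∀ n, x (n + 1) = nx (x n) ((1 / 2) ^ n) (half (v n)) (hpow n) := fun n => rfl
  have hv : ∀ n, v (n + 1) = sup (half (v n)) (half (m₀ (x (n + 1)))) := fun n => rfl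
  have F1 : ∀ n, f (x (n + 1)) ≠ f (x n) := fun n => by rw [hx]; exact hn1 _ _ _ _
  have F2 : ∀ n, P (B (half (v n)) (x (n + 1)) (x n)) (D (x n) + (1 / 2) ^ n) := fun n => by
    rw [hx]; exact hn2 _ _ _ _
  have F3 : ∀ n, D (x (n + 1)) ≤ 2 * (1 / 2) ^ n := fun n => by rw [hx]; exact hn3 _ _ _ _
  have F4 : ∀ n y z, B (half (v n)) y z ⊆ B (v (n + 1)) y z := fun n y z => by
    rw [hv]; exact hs1 _ _ _ _
  have F5 : ∀ n y z, B (half (m₀ (x n))) y z ⊆ B (v n) y z := by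
    intro n y z
    cases n with
    | zero => exact Set.Subset.refl _
    | succ n => rw [hv]; exact hs2 _ _ _ _
  have F6 : ∀ n, P (B (half (v n)) (x (n + 1)) (x n)) (5 * (1 / 2) ^ n) := by
    intro n
    refine (F2 n).mono (Set.Subset.refl _) ?_
    cases n with
    | zero => have := Dle (x 0); norm_num; linarith
    | succ n =>
      have := F3 n
      have h2 : (1 / 2 : ℝ) ^ (n + 1) = (1 / 2) ^ n / 2 := by rw [pow_succ]; ring
      rw [h2]
      linarith
  choose N hN using F6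
  let N' : ℕ → ℕ := fun n => ∑ i ∈ Finset.range (n + 1), N i + n
  have hN'mono : Monotone N' := by
    apply monotone_nat_of_le_succ
    intro n
    simp only [N']
    rw [Finset.sum_range_succ _ (n + 1)]
    omega
  have hNN' : ∀ n, N n ≤ N' n := by
    intro n
    simp only [N']
    have := Finset.single_le_sum (f := N) (fun i _ => Nat.zero_le _) (Finset.self_mem_range_succ n)
    omega
  have hnN' : ∀ n, n ≤ N' n := fun n => by simp only [N']; omega
  let κ : ℕ → ℕ := fun ω => Nat.findGreatest (fun k => N' k ≤ ω) ω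
  obtain ⟨z, hz⟩ := c4 (fun ω => x (κ ω)) (fun ω => v (κ ω))
  have hZ : ∀ n, B (v n) z (x n) ⊆ {ω | ω < N' n} ∪
      ⋃ k ∈ {k | n ≤ k}, (B (half (v k)) (x (k + 1)) (x k) ∩ {ω | N' k ≤ ω}) := by
    intro n ω hω
    by_contra hcn
    rw [Set.mem_union, not_or] at hcn
    obtain ⟨h1, h2⟩ := hcn
    have h1' : N' n ≤ ω := not_lt.1 h1
    have h2' : ∀ k, n ≤ k → N' k ≤ ω → ω ∉ B (half (v k)) (x (k + 1)) (x k) := by
      intro k hk hk2 h3
      apply h2
      rw [Set.mem_iUnion₂]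
      exact ⟨k, hk, h3, hk2⟩
    have hκ : N' (κ ω) ≤ ω := Nat.findGreatest_spec (P := fun k => N' k ≤ ω)
      ((hnN' n).trans h1') h1'
    have hnκ : n ≤ κ ω := Nat.le_findGreatest ((hnN' n).trans h1') h1'
    have key : ∀ j, n ≤ j → j ≤ κ ω → ω ∉ B (v j) z (x j) := by
      intro j hj hjκ
      obtain ⟨d, hd⟩ := Nat.exists_eq_add_of_le hjκ
      induction d generalizing j with
      | zero =>
        have : j = κ ω := by omega
        rw [this]
        exact hz ω
      | succ d ih =>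
        intro h3
        have h4 := ih (j + 1) (by omega) (by omega) (by omega)
        rcases hhalf (v j) z (x (j + 1)) (x j) h3 with h5 | h5
        · exact h4 (F4 j _ _ h5)
        · exact h2' j hj ((hN'mono (by omega : j ≤ κ ω)).trans hκ) h5
    exact key n le_rfl hnκ hω
  have hgeo : ∀ n m : ℕ, ∑ k ∈ Finset.Ico n m, (5 : ℝ) * (1 / 2) ^ k ≤ 10 * (1 / 2) ^ n := by
    intro n m
    by_cases hnm : n ≤ m
    · have : ∀ m, n ≤ m → ∑ k ∈ Finset.Ico n m, (5 : ℝ) * (1 / 2) ^ k =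
          10 * (1 / 2) ^ n - 10 * (1 / 2) ^ m := by
        intro m hm
        induction m, hm using Nat.le_induction with
        | base => simp
        | succ m hm ih =>
          rw [Finset.sum_Ico_succ_top hm, ih, pow_succ]
          ring
      rw [this m hnm]
      have := hpow m
      linarith
    · rw [Finset.Ico_eq_empty (by omega)]
      have := hpow n
      simp
  have hPz : ∀ n, P (B (v n) z (x n)) (11 * (1 / 2) ^ n) := by
    intro n
    obtain ⟨M, hM⟩ := exists_nat_ge ((N' n : ℝ) / (1 / 2) ^ n)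
    refine ⟨M, fun m hm => ?_⟩
    have h1 : cnt (B (v n) z (x n)) m ≤ N' n + ∑ k ∈ Finset.Ico n m,
        cnt (B (half (v k)) (x (k + 1)) (x k) ∩ {ω | N' k ≤ ω}) m := by
      refine cnt_bound _ _ _ _ _ ?_
      intro ω hωm hω
      rcases hZ n hω with h | h
      · exact Or.inl h
      · rw [Set.mem_iUnion₂] at h
        obtain ⟨k, hk, h3⟩ := h
        refine Or.inr ⟨k, ?_, h3⟩
        rw [Finset.mem_Ico]
        have h4 : N' k ≤ ω := h3.2
        have := hnN' k
        exact ⟨hk, by omega⟩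
    have h2 : ∀ k ∈ Finset.Ico n m, (cnt (B (half (v k)) (x (k + 1)) (x k) ∩ {ω | N' k ≤ ω}) m : ℝ)
        ≤ 5 * (1 / 2) ^ k * m := by
      intro k _
      by_cases hk : N' k ≤ m
      · have h3 := hN k m ((hNN' k).trans hk)
        have h4 : (cnt (B (half (v k)) (x (k + 1)) (x k) ∩ {ω | N' k ≤ ω}) m : ℝ) ≤
            cnt (B (half (v k)) (x (k + 1)) (x k)) m := by
          exact_mod_cast cnt_mono Set.inter_subset_left m
        linarith
      · have h3 : cnt (B (half (v k)) (x (k + 1)) (x k) ∩ {ω | N' k ≤ ω}) m = 0 := by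
          refine cnt_eq_zero fun ω hω h4 => ?_
          have h5 : N' k ≤ ω := h4.2
          omega
        rw [h3]
        have h9 := hpow k
        have h10 : (0 : ℝ) ≤ 5 * (1 / 2) ^ k * m := by positivity
        rw [Nat.cast_zero]
        exact h10
    have h3 : (cnt (B (v n) z (x n)) m : ℝ) ≤ N' n + (∑ k ∈ Finset.Ico n m,
        (5 : ℝ) * (1 / 2) ^ k) * m := by
      have h4 : (cnt (B (v n) z (x n)) m : ℝ) ≤ ((N' n + ∑ k ∈ Finset.Ico n m,
        cnt (B (half (v k)) (x (k + 1)) (x k) ∩ {ω | N' k ≤ ω}) m : ℕ) : ℝ) := by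
        exact_mod_cast h1
      push_cast at h4
      rw [Finset.sum_mul]
      have h5 := Finset.sum_le_sum h2
      linarith
    have h4 := mul_le_mul_of_nonneg_right (hgeo n m) (Nat.cast_nonneg (α := ℝ) m)
    have h5 : (N' n : ℝ) / (1 / 2) ^ n ≤ m := hM.trans (by exact_mod_cast hm)
    rw [div_le_iff₀ (hpow n)] at h5
    linarith
  -- choose the index
  obtain ⟨n₀, hn₀⟩ : ∃ n₀ : ℕ, ∀ n, n₀ ≤ n → 11 * (1 / 2 : ℝ) ^ n ≤ e₀ z := by
    obtain ⟨n₀, hn₀⟩ := exists_pow_lt_of_lt_one (show (0 : ℝ) < e₀ z / 11 by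
      have := he₀ z; positivity) (by norm_num : (1 / 2 : ℝ) < 1)
    refine ⟨n₀, fun n hn => ?_⟩
    have h1 : (1 / 2 : ℝ) ^ n ≤ (1 / 2) ^ n₀ := pow_le_pow_of_le_one (by norm_num) (by norm_num) hn
    linarith
  obtain ⟨n, hn, hfn⟩ : ∃ n, n₀ ≤ n ∧ f (x n) ≠ f z := by
    by_cases h1 : f (x n₀) = f z
    · refine ⟨n₀ + 1, by omega, fun h2 => F1 n₀ (h2.trans h1.symm)⟩
    · exact ⟨n₀, le_rfl, h1⟩
  set E : Set ℕ := B (half (m₀ (x n))) z (x n) with hE
  have hPE : P E (e₀ z) := (hPz n).mono (F5 n _ _) (hn₀ n hn)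
  obtain ⟨y, hy⟩ := c4 (fun ω => if ω ∈ E then x n else z)
    (fun _ => sup (sup (half (m₀ (x n))) (m₀ z)) (m₀ (x n)))
  have fy1 : f y = f z := by
    refine hm₀ z y (hPE.mono ?_ le_rfl)
    intro ω hω
    by_contra hωE
    have h1 := hy ω
    simp only [if_neg hωE] at h1
    exact h1 (hs1 _ _ _ _ (hs2 _ _ _ _ hω))
  have fy2 : f y = f (x n) := by
    refine hm₀ (x n) y ((P_empty (he₀ (x n)).le).mono ?_ le_rfl)
    intro ω hω
    exfalso
    by_cases hωE : ω ∈ E
    · have h1 := hy ω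
      simp only [if_pos hωE] at h1
      exact h1 (hs2 _ _ _ _ hω)
    · have h1 := hy ω
      simp only [if_neg hωE] at h1
      rcases hhalf (m₀ (x n)) y z (x n) hω with h | h
      · exact h1 (hs1 _ _ _ _ (hs1 _ _ _ _ h))
      · exact hωE h
  exact hfn (fy2.symm.trans fy1)

end Pool.Agent.Helper9K
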