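import Pool.Agent.Helper9K.Alg

/-!
# An ultrapower with small algebraically independent elements
-/

set_option autoImplicit false

open Filter

namespace Pool.Agent.Helper9K

section

variable {F : Type} [Field F] {A : Type} (b : A → ℕ → F)

/-- the filter of the sets on which some nonzero polynomial does not vanish -/
def fil : Filter (A → ℕ) where
  sets := {S | ∃ p : MvPolynomial A F, p ≠ 0 ∧
    {i : A → ℕ | MvPolynomial.eval (fun a => b a (i a)) p ≠ 0} ⊆ S}
  univ_sets := ⟨1, one_ne_zero, Set.subset_univ _⟩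
  sets_of_superset := by
    rintro S T ⟨p, hp, h⟩ hST
    exact ⟨p, hp, h.trans hST⟩
  inter_sets := by
    rintro S T ⟨p, hp, h⟩ ⟨q, hq, h'⟩
    refine ⟨p * q, mul_ne_zero hp hq, ?_⟩
    intro i hi
    have hi' : MvPolynomial.eval (fun a => b a (i a)) (p * q) ≠ 0 := hi
    rw [map_mul] at hi'
    exact ⟨h (left_ne_zero_of_mul hi'), h' (right_ne_zero_of_mul hi')⟩

lemma fil_neBot (hb : ∀ a, Function.Injective (b a)) : (fil b).NeBot := by
  refine ⟨fun h0 => ?_⟩
  have h00 : ∅ ∈ fil b := by rw [h0]; exact Filter.mem_bot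
  obtain ⟨p, hp, h⟩ := h00
  apply hp
  refine MvPolynomial.funext_set (fun a => Set.range (b a))
    (fun a => Set.infinite_range_of_injective (hb a)) ?_
  intro x hx
  have h1 : ∀ a, ∃ n, b a n = x a := fun a => hx a (Set.mem_univ a)
  choose i hi using h1
  rw [map_zero]
  by_contra h2
  have h3 : i ∈ {i : A → ℕ | MvPolynomial.eval (fun a => b a (i a)) p ≠ 0} := by
    show MvPolynomial.eval (fun a => b a (i a)) p ≠ 0
    have h4 : (fun a => b a (i a)) = x := funext hi
    rw [h4]
    exact h2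
  exact h h3

/-- the ultrafilter -/
noncomputable def uf (hb : ∀ a, Function.Injective (b a)) : Ultrafilter (A → ℕ) :=
  @Ultrafilter.of _ (fil b) (fil_neBot b hb)

lemma uf_le (hb : ∀ a, Function.Injective (b a)) : (uf b hb : Filter (A → ℕ)) ≤ fil b :=
  @Ultrafilter.of_le _ (fil b) (fil_neBot b hb)

/-- the ultrapower -/
abbrev GG (hb : ∀ a, Function.Injective (b a)) : Type := Germ (uf b hb : Filter (A → ℕ)) F

variable (hb : ∀ a, Function.Injective (b a))

/-- constants -/
noncomputable def cst : F →+* GG b hb :=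
  (Germ.coeRingHom (R := F) (uf b hb : Filter (A → ℕ))).comp (Pi.constRingHom (A → ℕ) F)

noncomputable instance : Algebra F (GG b hb) := (cst b hb).toAlgebra

/-- the generic elements -/
noncomputable def gam (a : A) : GG b hb := ((fun i : A → ℕ => b a (i a) : (A → ℕ) → F) : GG b hb)

lemma aeval_gam (p : MvPolynomial A F) : MvPolynomial.aeval (gam b hb) p =
    ((fun i : A → ℕ => MvPolynomial.eval (fun a => b a (i a)) p : (A → ℕ) → F) : GG b hb) := by
  have h : ((MvPolynomial.aeval (gam b hb) : MvPolynomial A F →ₐ[F] GG b hb) :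
      MvPolynomial A F →+* GG b hb) =
      (Germ.coeRingHom (R := F) (uf b hb : Filter (A → ℕ))).comp
        (RingHom.pi (fun i : A → ℕ => MvPolynomial.eval (fun a => b a (i a)))) := by
    refine MvPolynomial.ringHom_ext ?_ ?_
    · intro r
      have h1 : ((MvPolynomial.aeval (gam b hb) : MvPolynomial A F →ₐ[F] GG b hb) :
        MvPolynomial A F →+* GG b hb) (MvPolynomial.C r) = algebraMap F (GG b hb) r := by
        simp
      rw [h1]
      show ((fun _ => r : (A → ℕ) → F) : GG b hb) = ((fun i : A → ℕ =>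
        MvPolynomial.eval (fun a => b a (i a)) (MvPolynomial.C r) : (A → ℕ) → F) : GG b hb)
      simp only [MvPolynomial.eval_C]
    · intro a
      have h1 : ((MvPolynomial.aeval (gam b hb) : MvPolynomial A F →ₐ[F] GG b hb) :
        MvPolynomial A F →+* GG b hb) (MvPolynomial.X a) = gam b hb a := by
        simp
      rw [h1]
      show gam b hb a = ((fun i : A → ℕ =>
        MvPolynomial.eval (fun a => b a (i a)) (MvPolynomial.X a) : (A → ℕ) → F) : GG b hb)
      simp only [MvPolynomial.eval_X]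
      rfl
  have h2 := congrArg (fun φ : MvPolynomial A F →+* GG b hb => φ p) h
  exact h2

lemma gam_indep : AlgebraicIndependent F (gam b hb) := by
  rw [algebraicIndependent_iff]
  intro p hp
  by_contra hp0
  rw [aeval_gam] at hp
  have h1 : ∀ᶠ i in (uf b hb : Filter (A → ℕ)), MvPolynomial.eval (fun a => b a (i a)) p = 0 :=
    Germ.coe_eq.1 hp
  have h2 : ∀ᶠ i in (uf b hb : Filter (A → ℕ)), MvPolynomial.eval (fun a => b a (i a)) p ≠ 0 :=
    uf_le b hb ⟨p, hp0, Set.Subset.refl _⟩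
  obtain ⟨i, h3, h4⟩ := (h1.and h2).exists
  exact h4 h3

/-- the standard subset given by a set -/
def st (U : Set F) : Set (GG b hb) := {x | Germ.LiftPred (· ∈ U) x}

lemma coe_mem_st {U : Set F} {f : (A → ℕ) → F} :
    ((f : GG b hb) ∈ st b hb U) ↔ ∀ᶠ i in (uf b hb : Filter (A → ℕ)), f i ∈ U :=
  Germ.liftPred_coe

lemma st_mono {U V : Set F} (h : U ⊆ V) : st b hb U ⊆ st b hb V := by
  intro x
  refine Germ.inductionOn x fun f hf => ?_
  rw [coe_mem_st] at hf ⊢
  exact hf.mono fun i hi => h hi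

lemma st_add {U V W : Set F} (h : ∀ u ∈ U, ∀ v ∈ V, u + v ∈ W) {x y : GG b hb}
    (hx : x ∈ st b hb U) (hy : y ∈ st b hb V) : x + y ∈ st b hb W := by
  revert hx hy
  refine Germ.inductionOn₂ x y fun f g hf hg => ?_
  rw [coe_mem_st] at hf hg
  rw [← Germ.coe_add, coe_mem_st]
  filter_upwards [hf, hg] with i h1 h2
  exact h _ h1 _ h2

lemma st_mul {U V W : Set F} (h : ∀ u ∈ U, ∀ v ∈ V, u * v ∈ W) {x y : GG b hb}
    (hx : x ∈ st b hb U) (hy : y ∈ st b hb V) : x * y ∈ st b hb W := by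
  revert hx hy
  refine Germ.inductionOn₂ x y fun f g hf hg => ?_
  rw [coe_mem_st] at hf hg
  rw [← Germ.coe_mul, coe_mem_st]
  filter_upwards [hf, hg] with i h1 h2
  exact h _ h1 _ h2

lemma st_neg {U W : Set F} (h : ∀ u ∈ U, -u ∈ W) {x : GG b hb}
    (hx : x ∈ st b hb U) : -x ∈ st b hb W := by
  revert hx
  refine Germ.inductionOn x fun f hf => ?_
  rw [coe_mem_st] at hf
  rw [← Germ.coe_neg, coe_mem_st]
  filter_upwards [hf] with i h1
  exact h _ h1

lemma st_inv {U W : Set F} (h : ∀ u ∈ U, u⁻¹ ∈ W) {x : GG b hb}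
    (hx : x ∈ st b hb U) : x⁻¹ ∈ st b hb W := by
  revert hx
  refine Germ.inductionOn x fun f hf => ?_
  rw [coe_mem_st] at hf
  rw [← Germ.coe_inv, coe_mem_st]
  filter_upwards [hf] with i h1
  exact h _ h1

lemma st_sub {U V W : Set F} (h : ∀ u ∈ U, ∀ v ∈ V, u - v ∈ W) {x y : GG b hb}
    (hx : x ∈ st b hb U) (hy : y ∈ st b hb V) : x - y ∈ st b hb W := by
  revert hx hy
  refine Germ.inductionOn₂ x y fun f g hf hg => ?_
  rw [coe_mem_st] at hf hg
  rw [← Germ.coe_sub, coe_mem_st]
  filter_upwards [hf, hg] with i h1 h2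
  exact h _ h1 _ h2

lemma cst_mem_st {U : Set F} (c : F) : algebraMap F (GG b hb) c ∈ st b hb U ↔ c ∈ U := by
  have h1 : algebraMap F (GG b hb) c = ((fun _ => c : (A → ℕ) → F) : GG b hb) := rfl
  rw [h1, coe_mem_st]
  exact Filter.eventually_const

lemma gam_mem_st {U : Set F} {a : A} (h : ∀ n, b a n ∈ U) : gam b hb a ∈ st b hb U := by
  unfold gam
  rw [coe_mem_st]
  exact Filter.Eventually.of_forall fun i => h _

/-- elements with values in a countable set -/
def CR (x : GG b hb) : Prop := ∃ S : Set F, S.Countable ∧ x ∈ st b hb S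

end

section

variable {F ι : Type} [Field F] (b : ℕ × Ji F ι → ℕ → F) (hb : ∀ a, Function.Injective (b a))

lemma cr_ev (n : ℕ) (t : Tm F ι) : CR b hb (ev (fun j => gam b hb (n, j)) n t) := by
  induction t with
  | c a => exact ⟨{a}, Set.countable_singleton a, (cst_mem_st b hb a).2 rfl⟩
  | g s u ih =>
    obtain ⟨S, hS, h⟩ := ih n
    refine ⟨Set.image2 (· + ·) S (Set.range (b (n, (s, u)))), hS.image2 (Set.countable_range _) _, ?_⟩
    rw [ev]
    exact st_add b hb (fun u hu v hv => Set.mem_image2_of_mem hu hv) h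
      (gam_mem_st b hb fun m => ⟨m, rfl⟩)
  | add x y ihx ihy =>
    obtain ⟨S, hS, h⟩ := ihx
    obtain ⟨T, hT, h'⟩ := ihy
    refine ⟨Set.image2 (· + ·) S T, hS.image2 hT _, ?_⟩
    rw [ev]
    exact st_add b hb (fun u hu v hv => Set.mem_image2_of_mem hu hv) h h'
  | mul x y ihx ihy =>
    obtain ⟨S, hS, h⟩ := ihx
    obtain ⟨T, hT, h'⟩ := ihy
    refine ⟨Set.image2 (· * ·) S T, hS.image2 hT _, ?_⟩
    rw [ev]
    exact st_mul b hb (fun u hu v hv => Set.mem_image2_of_mem hu hv) h h'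
  | inv x ihx =>
    obtain ⟨S, hS, h⟩ := ihx
    refine ⟨(·⁻¹) '' S, hS.image _, ?_⟩
    rw [ev]
    exact st_inv b hb (fun u hu => Set.mem_image_of_mem _ hu) h

/-- the evaluations of the big field -/
noncomputable def E (n : ℕ) : KK F ι →+* GG b hb :=
  evK (fun j => gam b hb (n, j)) ((gam_indep b hb).comp _ (Prod.mk_right_injective n)) n

lemma cr_E (n : ℕ) (k : KK F ι) : CR b hb (E b hb n k) := by
  obtain ⟨t, rfl⟩ := th_surj k
  unfold E
  rw [evK_th]
  exact cr_ev b hb n t

lemma E_const (n : ℕ) (a : F) : E b hb n (algebraMap (MvPolynomial (Ji F ι) F) (KK F ι)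
    (MvPolynomial.C a)) = algebraMap F (GG b hb) a :=
  evK_th (fun j => gam b hb (n, j)) ((gam_indep b hb).comp _ (Prod.mk_right_injective n)) n
    (Tm.c a)

lemma E_perturb (k : ℕ → KK F ι) (u : ι) : ∃ (z : KK F ι) (s : ℕ → Tm F ι),
    ∀ n, E b hb n z = E b hb n (k n) + gam b hb (n, (s, u)) :=
  perturb (fun n j => gam b hb (n, j))
    (fun n => (gam_indep b hb).comp _ (Prod.mk_right_injective n)) k u

end

end Pool.Agent.Helper9K
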