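import Pool.Agent.Helper9K.Top
import Pool.Agent.H918R5.Fin

/-!
# Topological fields with bounded countable subsets embed in connected topological fields
-/

set_option autoImplicit false

open Filter Topology

namespace Pool.Agent.Helper9K

theorem final_abs {F A K : Type} [Field F] [Field K] [tF : TopologicalSpace F]
    [IsTopologicalDivisionRing F] [T2Space F] (b : A → ℕ → F) (hb : ∀ a, Function.Injective (b a))
    (e : ℕ → K →+* GG b hb) (hCR : ∀ n k, CR b hb (e n k))
    (hcb : ∀ U ∈ 𝓝 (0 : F), ∀ S : Set F, S.Countable →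
      ∃ V ∈ 𝓝 (0 : F), ∀ s ∈ S, ∀ v ∈ V, s * v ∈ U)
    (g : F →+* K) (hg : ∀ n a, e n (g a) = algebraMap F (GG b hb) a)
    (hper : ∀ (k : ℕ → K) (u : ℕ → {U : Set F // U ∈ 𝓝 (0 : F)}),
      ∃ z, ∀ n, e n (z - k n) ∈ st b hb (u n).1) :
    ∃ (_ : TopologicalSpace K), IsTopologicalDivisionRing K ∧ T2Space K ∧ ConnectedSpace K ∧
      Topology.IsEmbedding g := by
  classical
  obtain ⟨τ, hτ, hn⟩ := top_exists b hb e hCR hcb
  refine ⟨τ, hτ, ?_, ?_, ?_⟩
  · -- Hausdorff
    refine Pool.Agent.H918R5.t_T2 K ?_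
    have hU : ({1}ᶜ : Set F) ∈ 𝓝 (0 : F) := isOpen_compl_singleton.mem_nhds (by simp)
    refine ⟨NN b hb e {1}ᶜ (1 / 2), (hn _).2 ⟨_, hU, 1 / 2, by norm_num, Set.Subset.refl _⟩, ?_⟩
    intro h
    have h1 : {n | e n (1 : K) ∉ st b hb ({1}ᶜ : Set F)} = Set.univ := by
      rw [Set.eq_univ_iff_forall]
      intro n
      show e n (1 : K) ∉ st b hb ({1}ᶜ : Set F)
      rw [map_one, ← map_one (algebraMap F (GG b hb)), cst_mem_st]
      simp
    have h2 : P {n | e n (1 : K) ∉ st b hb ({1}ᶜ : Set F)} (1 / 2) := h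
    rw [h1] at h2
    exact not_P_univ (by norm_num) h2
  · -- connected
    rw [connectedSpace_iff_clopen]
    refine ⟨⟨0⟩, fun s hs => ?_⟩
    have key := core (K := K) (V := {U : Set F // U ∈ 𝓝 (0 : F)})
      (fun v x y => {n | e n (x - y) ∉ st b hb v.1}) ?_ ?_ ?_ (fun x => decide (x ∈ s)) ?_
    · by_cases h : ∃ x, x ∈ s
      · obtain ⟨x, hx⟩ := h
        right
        rw [Set.eq_univ_iff_forall]
        intro y
        have h1 := key x y
        simp only [decide_eq_decide] at h1
        exact h1.1 hx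
      · left
        push Not at h
        exact Set.eq_empty_iff_forall_notMem.2 h
    · intro v
      obtain ⟨V, hV, hVU⟩ := exists_nhds_zero_half v.2
      refine ⟨⟨V, hV⟩, fun x y z n hn' => ?_⟩
      by_contra h'
      rw [Set.mem_union, not_or] at h'
      have h1 : e n (x - y) ∈ st b hb V := not_not.1 h'.1
      have h2 : e n (y - z) ∈ st b hb V := not_not.1 h'.2
      apply hn'
      have h3 : e n (x - z) = e n (x - y) + e n (y - z) := by rw [← map_add]; congr 1; ring
      rw [h3]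
      exact st_add b hb hVU h1 h2
    · intro v w
      refine ⟨⟨v.1 ∩ w.1, inter_mem v.2 w.2⟩, ?_, ?_⟩
      · intro x y n hn' h
        exact hn' (st_mono b hb Set.inter_subset_left h)
      · intro x y n hn' h
        exact hn' (st_mono b hb Set.inter_subset_right h)
    · intro k u
      obtain ⟨z, hz⟩ := hper k u
      exact ⟨z, fun n h => h (hz n)⟩
    · -- local constancy
      have loc : ∀ (t : Set K), IsOpen t → ∀ x ∈ t, ∃ v : {U : Set F // U ∈ 𝓝 (0 : F)}, ∃ ε : ℝ,
          0 < ε ∧ ∀ w, P {n | e n (w - x) ∉ st b hb v.1} ε → w ∈ t := by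
        intro t ht x hx
        have h1 : (fun y => y + x) ⁻¹' t ∈ 𝓝 (0 : K) := by
          have hc : Tendsto (fun y : K => y + x) (𝓝 0) (𝓝 (0 + x)) :=
            (continuous_id.add continuous_const).tendsto 0
          rw [zero_add] at hc
          exact hc (ht.mem_nhds hx)
        obtain ⟨U, hU, ε, hε, h2⟩ := (hn _).1 h1
        refine ⟨⟨U, hU⟩, ε, hε, fun w hw => ?_⟩
        have h3 : w - x ∈ NN b hb e U ε := hw
        have h4 : w - x + x ∈ t := h2 h3
        rwa [sub_add_cancel] at h4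
      intro x
      by_cases hx : x ∈ s
      · obtain ⟨v, ε, hε, h⟩ := loc s hs.isOpen x hx
        refine ⟨v, ε, hε, fun w hw => ?_⟩
        simp only [decide_eq_decide]
        exact ⟨fun _ => hx, fun _ => h w hw⟩
      · obtain ⟨v, ε, hε, h⟩ := loc sᶜ hs.compl.isOpen x hx
        refine ⟨v, ε, hε, fun w hw => ?_⟩
        simp only [decide_eq_decide]
        exact ⟨fun h' => absurd h' (h w hw), fun h' => absurd h' hx⟩
  · -- embedding
    refine ⟨⟨?_⟩, g.injective⟩
    have h := Pool.Agent.H918R5.t_CMP F K Unit g (fun _ => tF) (fun _ => τ) (fun _ => inferInstance)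
      (fun _ => hτ) ?_
    · rwa [iInf_const, iInf_const] at h
    · intro _
      ext S
      rw [Filter.mem_comap]
      constructor
      · intro hS
        refine ⟨NN b hb e S (1 / 2), (hn _).2 ⟨S, hS, 1 / 2, by norm_num, Set.Subset.refl _⟩, ?_⟩
        intro a ha
        by_contra haS
        have h1 : {n | e n (g a) ∉ st b hb S} = Set.univ := by
          rw [Set.eq_univ_iff_forall]
          intro n
          show e n (g a) ∉ st b hb S
          rw [hg, cst_mem_st]
          exact haS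
        have h2 : P {n | e n (g a) ∉ st b hb S} (1 / 2) := ha
        rw [h1] at h2
        exact not_P_univ (by norm_num) h2
      · rintro ⟨T, hT, hTS⟩
        obtain ⟨U, hU, ε, hε, h2⟩ := (hn _).1 hT
        refine mem_of_superset hU fun a ha => hTS (h2 ?_)
        refine (P_empty hε.le).mono ?_ le_rfl
        intro n hn'
        exfalso
        apply hn'
        rw [hg, cst_mem_st]
        exact ha

theorem main_nd (F : Type) [Field F] [tF : TopologicalSpace F] [IsTopologicalDivisionRing F]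
    [T2Space F] (hcb : ∀ U ∈ 𝓝 (0 : F), ∀ S : Set F, S.Countable →
      ∃ V ∈ 𝓝 (0 : F), ∀ s ∈ S, ∀ v ∈ V, s * v ∈ U) (hnd : (𝓝[≠] (0 : F)).NeBot) :
    ∃ (K : Type) (_ : Field K) (_ : TopologicalSpace K),
      IsTopologicalDivisionRing K ∧ T2Space K ∧ ConnectedSpace K ∧
        ∃ g : F →+* K, Topology.IsEmbedding g := by
  let Nb : Type := {U : Set F // U ∈ 𝓝 (0 : F)}
  let ι : Type := ℕ → Nb
  have hinf : ∀ U : Nb, U.1.Infinite := fun U => infinite_of_mem_nhds 0 U.2
  let b : ℕ × Ji F ι → ℕ → F := fun a m => ((hinf (a.2.2 a.1)).natEmbedding _ m : F)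
  have hb : ∀ a, Function.Injective (b a) := fun a =>
    Subtype.val_injective.comp ((hinf (a.2.2 a.1)).natEmbedding _).injective
  have hbU : ∀ a m, b a m ∈ (a.2.2 a.1).1 := fun a m =>
    ((hinf (a.2.2 a.1)).natEmbedding _ m).2
  obtain ⟨τ, h1, h2, h3, h4⟩ := final_abs (K := KK F ι) b hb (E b hb) (cr_E b hb) hcb
    ((algebraMap (MvPolynomial (Ji F ι) F) (KK F ι)).comp MvPolynomial.C)
    (fun n a => E_const b hb n a) (by
      intro k u
      obtain ⟨z, s, hz⟩ := E_perturb b hb k u
      refine ⟨z, fun n => ?_⟩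
      rw [map_sub, hz n, add_sub_cancel_left]
      exact gam_mem_st b hb fun m => hbU (n, (s, u)) m)
  exact ⟨KK F ι, inferInstance, τ, h1, h2, h3, _, h4⟩

theorem main (F : Type) [Field F] [tF : TopologicalSpace F] [IsTopologicalDivisionRing F]
    [T2Space F] (hcb : ∀ U ∈ 𝓝 (0 : F), ∀ S : Set F, S.Countable →
      ∃ V ∈ 𝓝 (0 : F), ∀ s ∈ S, ∀ v ∈ V, s * v ∈ U) :
    ∃ (K : Type) (_ : Field K) (_ : TopologicalSpace K),
      IsTopologicalDivisionRing K ∧ T2Space K ∧ ConnectedSpace K ∧
        ∃ g : F →+* K, Topology.IsEmbedding g := by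
  by_cases hF : (𝓝[≠] (0 : F)).NeBot
  · exact main_nd F hcb hF
  · have : DiscreteTopology F := Pool.Agent.H918R5.discrete_of_zero
      (Pool.Agent.H918R5.zero_mem_of_not hF)
    exact Pool.Agent.H918R5.conn_discrete F

end Pool.Agent.Helper9K
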