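import Pool.Agent.Helper9K.Core
import Pool.Agent.Helper9K.Fil

/-!
# The topology of the big field
-/

set_option autoImplicit false

open Filter Topology

namespace Pool.Agent.Helper9K

section

variable {F A K : Type} [Field F] [Field K]
  (b : A → ℕ → F) (hb : ∀ a, Function.Injective (b a)) (e : ℕ → K →+* GG b hb)

/-- neighbourhoods of zero of the big field -/
def NN (U : Set F) (ε : ℝ) : Set K := {k | P {n | e n k ∉ st b hb U} ε}

lemma NN_mono {U V : Set F} {ε δ : ℝ} (hU : U ⊆ V) (hε : ε ≤ δ) : NN b hb e U ε ⊆ NN b hb e V δ := by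
  intro k hk
  refine P.mono hk ?_ hε
  intro n hn h
  exact hn (st_mono b hb hU h)

lemma NN_of {U V : Set F} {ε : ℝ} {k l : K}
    (h : ∀ n, e n k ∈ st b hb V → e n l ∈ st b hb U) (hk : k ∈ NN b hb e V ε) :
    l ∈ NN b hb e U ε := by
  refine P.mono hk ?_ le_rfl
  intro n hn h'
  exact hn (h n h')

lemma NN_of2 {U V W : Set F} {ε δ : ℝ} {k l m : K}
    (h : ∀ n, e n k ∈ st b hb V → e n l ∈ st b hb W → e n m ∈ st b hb U)
    (hk : k ∈ NN b hb e V ε) (hl : l ∈ NN b hb e W δ) :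
    m ∈ NN b hb e U (ε + δ) := by
  refine P.mono (P.union hk hl) ?_ le_rfl
  intro n hn
  by_contra h'
  rw [Set.mem_union, not_or] at h'
  exact hn (h n (not_not.1 h'.1) (not_not.1 h'.2))

/-- fixed elements are bounded -/
lemma bdd [TopologicalSpace F] (hCR : ∀ n k, CR b hb (e n k))
    (hcb : ∀ U ∈ 𝓝 (0 : F), ∀ S : Set F, S.Countable →
      ∃ V ∈ 𝓝 (0 : F), ∀ s ∈ S, ∀ v ∈ V, s * v ∈ U) (k : K) {U : Set F} (hU : U ∈ 𝓝 (0 : F)) :
    ∃ V ∈ 𝓝 (0 : F), ∀ n, ∀ y ∈ st b hb V, e n k * y ∈ st b hb U := by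
  choose S hS hkS using fun n => hCR n k
  obtain ⟨V, hV, h⟩ := hcb U hU (⋃ n, S n) (Set.countable_iUnion hS)
  refine ⟨V, hV, fun n y hy => ?_⟩
  exact st_mul b hb (fun u hu v hv => h u (Set.mem_iUnion.2 ⟨n, hu⟩) v hv) (hkS n) hy

variable [TopologicalSpace F] [IsTopologicalDivisionRing F] [T2Space F]

/-- the filter basis -/
def bas (hCR : ∀ n k, CR b hb (e n k)) (hcb : ∀ U ∈ 𝓝 (0 : F), ∀ S : Set F, S.Countable →
      ∃ V ∈ 𝓝 (0 : F), ∀ s ∈ S, ∀ v ∈ V, s * v ∈ U) : RingFilterBasis K where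
  sets := {S | ∃ U ∈ 𝓝 (0 : F), ∃ ε : ℝ, 0 < ε ∧ S = NN b hb e U ε}
  nonempty := ⟨_, Set.univ, univ_mem, 1, one_pos, rfl⟩
  inter_sets := by
    rintro _ _ ⟨U, hU, ε, hε, rfl⟩ ⟨V, hV, δ, hδ, rfl⟩
    refine ⟨_, ⟨U ∩ V, inter_mem hU hV, min ε δ, lt_min hε hδ, rfl⟩, ?_⟩
    exact Set.subset_inter (NN_mono b hb e Set.inter_subset_left (min_le_left _ _))
      (NN_mono b hb e Set.inter_subset_right (min_le_right _ _))
  zero' := by
    rintro _ ⟨U, hU, ε, hε, rfl⟩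
    refine (P_empty hε.le).mono ?_ le_rfl
    intro n hn
    exfalso
    apply hn
    rw [map_zero, ← map_zero (algebraMap F (GG b hb)), cst_mem_st]
    exact mem_of_mem_nhds hU
  add' := by
    rintro _ ⟨U, hU, ε, hε, rfl⟩
    obtain ⟨V, hV, hVU⟩ := exists_nhds_zero_half hU
    refine ⟨_, ⟨V, hV, ε / 2, by linarith, rfl⟩, ?_⟩
    intro y hy
    rw [Set.mem_add] at hy
    obtain ⟨z, hz, w, hw, rfl⟩ := hy
    have h1 : z + w ∈ NN b hb e U (ε / 2 + ε / 2) := by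
      refine NN_of2 (k := z) (l := w) (m := z + w) (U := U) (V := V) (W := V) b hb e ?_ hz hw
      intro n h1 h2
      rw [map_add]
      exact st_add b hb hVU h1 h2
    rw [add_halves] at h1
    exact h1
  neg' := by
    rintro _ ⟨U, hU, ε, hε, rfl⟩
    have hU' : (fun x : F => -x) ⁻¹' U ∈ 𝓝 (0 : F) := by
      apply continuous_neg.continuousAt.preimage_mem_nhds
      rw [neg_zero]
      exact hU
    refine ⟨_, ⟨_, hU', ε, hε, rfl⟩, ?_⟩
    intro z hz
    show -z ∈ NN b hb e U ε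
    refine NN_of (k := z) (l := -z) b hb e (fun n h1 => ?_) hz
    rw [map_neg]
    exact st_neg b hb (fun u hu => hu) h1
  conj' := by
    intro x0 U hU
    refine ⟨U, hU, ?_⟩
    intro x hx
    simpa using hx
  mul' := by
    rintro _ ⟨U, hU, ε, hε, rfl⟩
    have hm : (fun p : F × F => p.1 * p.2) ⁻¹' U ∈ 𝓝 ((0 : F), (0 : F)) := by
      apply continuous_mul.continuousAt.preimage_mem_nhds
      rw [mul_zero]
      exact hU
    rw [nhds_prod_eq, mem_prod_self_iff] at hm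
    obtain ⟨V, hV, hVU⟩ := hm
    refine ⟨_, ⟨V, hV, ε / 2, by linarith, rfl⟩, ?_⟩
    intro y hy
    rw [Set.mem_mul] at hy
    obtain ⟨z, hz, w, hw, rfl⟩ := hy
    have h1 : z * w ∈ NN b hb e U (ε / 2 + ε / 2) := by
      refine NN_of2 (k := z) (l := w) (m := z * w) (U := U) (V := V) (W := V) b hb e ?_ hz hw
      intro n h1 h2
      rw [map_mul]
      exact st_mul b hb (fun u hu v hv => hVU (Set.mk_mem_prod hu hv)) h1 h2
    rw [add_halves] at h1
    exact h1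
  mul_left' := by
    rintro x0 _ ⟨U, hU, ε, hε, rfl⟩
    obtain ⟨V, hV, hVU⟩ := bdd b hb e hCR hcb x0 hU
    refine ⟨_, ⟨V, hV, ε, hε, rfl⟩, ?_⟩
    intro z hz
    show x0 * z ∈ NN b hb e U ε
    refine NN_of (k := z) (l := x0 * z) b hb e (fun n h1 => ?_) hz
    rw [map_mul]
    exact hVU n _ h1
  mul_right' := by
    rintro x0 _ ⟨U, hU, ε, hε, rfl⟩
    obtain ⟨V, hV, hVU⟩ := bdd b hb e hCR hcb x0 hU
    refine ⟨_, ⟨V, hV, ε, hε, rfl⟩, ?_⟩
    intro z hz
    show z * x0 ∈ NN b hb e U ε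
    refine NN_of (k := z) (l := z * x0) b hb e (fun n h1 => ?_) hz
    rw [map_mul, mul_comm]
    exact hVU n _ h1

/-- the topology -/
theorem top_exists (hCR : ∀ n k, CR b hb (e n k))
    (hcb : ∀ U ∈ 𝓝 (0 : F), ∀ S : Set F, S.Countable →
      ∃ V ∈ 𝓝 (0 : F), ∀ s ∈ S, ∀ v ∈ V, s * v ∈ U) :
    ∃ τ : TopologicalSpace K, @IsTopologicalDivisionRing K _ τ ∧
      ∀ S : Set K, S ∈ @nhds K τ 0 ↔
        ∃ U ∈ 𝓝 (0 : F), ∃ ε : ℝ, 0 < ε ∧ NN b hb e U ε ⊆ S := by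
  set B : RingFilterBasis K := bas b hb e hCR hcb with hB
  let τ : TopologicalSpace K := B.topology
  have hring : IsTopologicalRing K := B.isTopologicalRing
  have hnhds : ∀ S : Set K, S ∈ 𝓝 (0 : K) ↔
      ∃ U ∈ 𝓝 (0 : F), ∃ ε : ℝ, 0 < ε ∧ NN b hb e U ε ⊆ S := by
    intro S
    rw [AddGroupFilterBasis.nhds_zero_eq, FilterBasis.mem_filter_iff]
    constructor
    · rintro ⟨_, ⟨U, hU, ε, hε, rfl⟩, hS⟩
      exact ⟨U, hU, ε, hε, hS⟩
    · rintro ⟨U, hU, ε, hε, hS⟩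
      exact ⟨_, ⟨U, hU, ε, hε, rfl⟩, hS⟩
  -- inversion at one
  have hinv1 : Tendsto (fun x : K => x⁻¹) (𝓝 1) (𝓝 1) := by
    have key : Tendsto (fun x : K => (1 + x)⁻¹ - 1) (𝓝 0) (𝓝 0) := by
      intro S hS
      rw [hnhds] at hS
      obtain ⟨U, hU, ε, hε, hS⟩ := hS
      rw [mem_map, hnhds]
      have hc : Tendsto (fun x : F => (1 + x)⁻¹ - 1) (𝓝 0) (𝓝 0) := by
        have h1 : ContinuousAt (fun x : F => (1 + x)⁻¹ - 1) 0 := by
          apply ContinuousAt.sub _ continuousAt_const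
          apply ContinuousAt.inv₀
          · exact (continuous_const.add continuous_id).continuousAt
          · simp
        have h2 := h1.tendsto
        simpa using h2
      refine ⟨_, hc hU, ε, hε, ?_⟩
      intro x hx
      apply hS
      refine NN_of (k := x) (l := (1 + x)⁻¹ - 1) b hb e (fun n h1 => ?_) hx
      rw [map_sub, map_inv₀, map_add, map_one]
      -- work with representatives
      revert h1
      refine Germ.inductionOn (e n x) fun f hf => ?_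
      rw [coe_mem_st] at hf
      have h2 : ((1 + (f : GG b hb))⁻¹ - 1 : GG b hb) =
          ((fun i => (1 + f i)⁻¹ - 1 : (A → ℕ) → F) : GG b hb) := rfl
      rw [h2, coe_mem_st]
      exact hf
    have h1 : Tendsto (fun x : K => (1 + (x - 1))⁻¹ - 1 + 1) (𝓝 1) (𝓝 (0 + 1)) := by
      have h2 : Tendsto (fun x : K => x - 1) (𝓝 1) (𝓝 0) := by
        have : Tendsto (fun x : K => x - 1) (𝓝 1) (𝓝 (1 - 1)) :=
          (continuous_id.sub continuous_const).tendsto 1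
        rwa [sub_self] at this
      exact (key.comp h2).add tendsto_const_nhds
    simpa using h1
  refine ⟨τ, ?_, hnhds⟩
  refine { toIsTopologicalRing := hring, continuousAt_inv₀ := ?_ }
  intro x hx
  have h1 : Tendsto (fun y : K => x⁻¹ * y) (𝓝 x) (𝓝 1) := by
    have : Tendsto (fun y : K => x⁻¹ * y) (𝓝 x) (𝓝 (x⁻¹ * x)) :=
      (continuous_const.mul continuous_id).tendsto x
    rwa [inv_mul_cancel₀ hx] at this
  have h2 : Tendsto (fun y : K => (x⁻¹ * y)⁻¹ * x⁻¹) (𝓝 x) (𝓝 (1 * x⁻¹)) :=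
    (hinv1.comp h1).mul tendsto_const_nhds
  have h3 : (fun y : K => (x⁻¹ * y)⁻¹ * x⁻¹) = fun y => y⁻¹ := by
    funext y
    rw [mul_inv, inv_inv, mul_comm x, mul_assoc, mul_inv_cancel₀ hx, mul_one]
  rw [h3, one_mul] at h2
  exact h2

end

end Pool.Agent.Helper9K
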